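import Pool.Agent.helper3.XT.Spec

set_option autoImplicit false

namespace Pool.Agent.XT

open Finset SimpleGraph

theorem EXF : EXF_stmt := by
  intro n b hb h
  have h1 : exF n V3F F3 ≤ ⌊b⌋₊ := by
    unfold exF
    rcases Set.eq_empty_or_nonempty
      {m | ∃ G : SimpleGraph (Fin n), (∀ i, (F3 i).Free G) ∧ G.edgeSet.ncard = m} with he | hne
    · rw [he, csSup_empty]
      exact Nat.zero_le _
    · refine csSup_le hne ?_
      rintro m ⟨G, hG, rfl⟩
      exact Nat.le_floor (h G hG)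
  calc (exF n V3F F3 : ℝ) ≤ (⌊b⌋₊ : ℝ) := by exact_mod_cast h1
    _ ≤ b := Nat.floor_le hb

end Pool.Agent.XT
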